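import Pool.Agent.Helper38.FW.GoalsG
import Pool.Agent.Helper48.PW.WASM

/-!
# Project W (MP_fc6b1e_nt), packet W-G_ASM: from classes to characters, general weights

Adapted from `Pool/Agent/Helper48/PW/WASM.lean`.
-/

set_option autoImplicit false

namespace Pool.Agent.Helper49.FW

open NumberField Polynomial Module IsDedekindDomain
open Pool.Agent.Helper51.RP Pool.Agent.Helper42.RD Pool.Agent.Helper42.PP Pool.Agent.Helper42.PP1
open Pool.Agent.Helper42.PB Pool.Agent.Helper11.PP Pool.Agent.Helper11.LE Pool.Agent.Helper42.PW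
open Pool.Agent.Helper38.FD (Chr CutsOut)
open Pool.Agent.Helper38.ND (cnt2)
open Pool.Agent.Helper77.PPB (ChN)
open Pool.Agent.Helper48.PW (coreW)

theorem g_asm : Pool.Agent.Helper38.FW.G_ASM := by
  intro h1 h3 h2 p hp K K₁ _ _ _ _ _ ε hcyc j hj εk hεk nf cf k1 k2 k3 k4 A hA e he n Bd G Z θ hθ hZ
    hG hab h0
  classical
  have hp0 : (p : K) ≠ 0 := by exact_mod_cast hp.out.ne_zero
  have hSf : {v : HeightOneSpectrum (𝓞 K) | v.valuation K (p : K) < 1}.Finite :=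
    (Pool.Agent.Helper99.RS.finite_bad hp0).subset fun v hv => ne_of_lt hv
  set Sp : Finset (HeightOneSpectrum (𝓞 K)) := hSf.toFinset with hSp
  have hSpm : ∀ v, v ∈ Sp ↔ v.valuation K (p : K) < 1 := by
    intro v
    rw [hSp, Set.Finite.mem_toFinset]
    rfl
  -- the primes of `K₁` above `p`
  have hup : up K₁ Sp = {W : HeightOneSpectrum (𝓞 K₁) | W.valuation K₁ (p : K₁) < 1} := by
    have e1 : ∀ W : HeightOneSpectrum (𝓞 K₁), (W.valuation K₁ (p : K₁) < 1 ↔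
        (Pool.Agent.Helper40.RS.bel K W).valuation K (p : K) < 1) := by
      intro W
      have e2 : W.valuation K₁ (p : K₁) < 1 ↔ (p : 𝓞 K₁) ∈ W.asIdeal := by
        rw [← W.valuation_lt_one_iff_mem (K := K₁)]
        simp
      have e3 : (Pool.Agent.Helper40.RS.bel K W).valuation K (p : K) < 1 ↔
          (p : 𝓞 K) ∈ (Pool.Agent.Helper40.RS.bel K W).asIdeal := by
        rw [← (Pool.Agent.Helper40.RS.bel K W).valuation_lt_one_iff_mem (K := K)]
        simp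
      rw [e2, e3]
      exact natCast_bel p W
    ext W
    constructor
    · rintro ⟨v, hv, hWv⟩
      have e : Pool.Agent.Helper40.RS.bel K W = v := HeightOneSpectrum.ext hWv
      rw [Set.mem_ofPred_eq, e1, e]
      exact (hSpm v).1 hv
    · intro hW
      exact ⟨Pool.Agent.Helper40.RS.bel K W, (hSpm _).2 ((e1 W).1 hW), above_bel W⟩
  obtain ⟨f, hf, hfc⟩ := h2 h1 p K K₁ ε hcyc j hj εk hεk nf cf k1 k3 Sp hSpm e he
  set gz := Pool.Agent.Helper15.PP.gZ p (up K₁ Sp) with hgz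
  -- the local conditions
  set A' : Set (ClP p K₁) := {c | ∃ a a' : K₁ˣ, OmType p K ε (a : K₁) ∧ OmType p K ε (a' : K₁) ∧
    clp p a = c ∧ clp p a' ∈ BSet p K ε ∧ (nf (clp p a'), cf (clp p a')) ∈ A ∧
    LocS p (up K₁ Sp) (a / a')} with hA'
  have hcl : ∀ a b : K₁ˣ, clp p a = clp p b → a / b ∈ gz := by
    intro a b hab
    have e := QuotientGroup.eq.1 hab
    obtain ⟨y, hy⟩ := e
    have hy' : y ^ p = a⁻¹ * b := hy
    refine ⟨y, fun w _ => ?_⟩
    have e2 : ((a / b : K₁ˣ) : K₁) * (y : K₁) ^ p = 1 := by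
      have e3 : (a / b) * y ^ p = 1 := by
        rw [hy']
        rw [div_eq_mul_inv, mul_assoc, mul_comm b⁻¹, mul_assoc, mul_inv_cancel, mul_one,
          mul_inv_cancel]
      have := congrArg (fun u : K₁ˣ => (u : K₁)) e3
      simpa using this
    rw [e2, sub_self, map_zero]
    exact ⟨zero_lt_one, zero_le⟩
  have hLocA' : LocA p K ε Sp A' := by
    rintro a a' ha ha' hl ⟨b, b', hb, hb', hbc, hb1, hb2, hbl⟩
    refine ⟨a', b', ha', hb', rfl, hb1, hb2, ?_⟩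
    have e1 : a' / b' = (a / a')⁻¹ * (a / b) * (b / b') := by
      rw [inv_div, div_mul_div_cancel, div_mul_div_cancel]
    have e2 : a / b ∈ gz := hcl a b hbc.symm
    have e3 : a' / b' ∈ gz := by
      rw [e1]
      exact gz.mul_mem (gz.mul_mem (gz.inv_mem hl) e2) hbl
    exact e3
  have hiff : ∀ c ∈ BSet p K ε, (c ∈ A' ↔ (nf c, cf c) ∈ A) := by
    intro c hc
    constructor
    · rintro ⟨a, a', ha, ha', rfl, h4, h5, h6⟩
      refine hA.loc _ h5 _ ⟨(k1 _ hc).1, (k3 _ hc).1⟩ ?_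
      intro σ
      refine h1 p K K₁ ε hcyc j hj εk hεk nf cf (fun c hc => (k1 c hc).1) k3 a' a h4 hc ?_ σ
      rw [← hup]
      have e : a' / a = (a / a')⁻¹ := (inv_div _ _).symm
      rw [e]
      exact gz.inv_mem h6
    · intro h
      obtain ⟨hc1, a, rfl, ha⟩ := hc
      refine ⟨a, a, ha, ha, rfl, ⟨hc1, a, rfl, ha⟩, h, ?_⟩
      rw [div_self']
      exact gz.one_mem
  have hsur : ∀ x ∈ ChN p K, ∃ c ∈ BSet p K ε, (nf c, cf c) = x := by
    rintro ⟨N, φ⟩ ⟨hN, hφ⟩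
    obtain ⟨c, ⟨hc1, hc2, hc3⟩, -⟩ := k4 N hN φ hφ
    exact ⟨c, hc1, Prod.ext hc2 hc3⟩
  have hinj : ∀ c ∈ BSet p K ε, ∀ c' ∈ BSet p K ε, (nf c, cf c) = (nf c', cf c') → c = c' := by
    intro c hc c' hc' h
    obtain ⟨d, -, hu⟩ := k4 (nf c) (k1 c hc).1 (cf c) (k3 c hc).1
    rw [hu c ⟨hc, rfl, rfl⟩]
    exact (hu c' ⟨hc', (congrArg Prod.fst h).symm, (congrArg Prod.snd h).symm⟩).symm
  obtain ⟨x₀, hx₀⟩ := hA.ne
  obtain ⟨c₀, hc₀, hc₀x⟩ := hsur x₀ (hA.sub hx₀)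
  have hc₀A : c₀ ∈ A' := (hiff c₀ hc₀).2 (by rw [hc₀x]; exact hx₀)
  have hex : ∃ a : K₁ˣ, OmType p K ε (a : K₁) ∧ clp p a ∈ A' := by
    obtain ⟨-, a, ha, ho⟩ := hc₀
    exact ⟨a, ho, by rw [ha]; exact hc₀A⟩
  have hexu : ∃ a : K₁ˣ, OmType p K ε (a : K₁) ∧ clp p a ∈ (Set.univ : Set (ClP p K₁)) := by
    obtain ⟨a, ho, -⟩ := hex
    exact ⟨a, ho, Set.mem_univ _⟩
  have hLocU : LocA p K ε Sp (Set.univ : Set (ClP p K₁)) := fun _ _ _ _ _ _ => Set.mem_univ _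
  have hU := h0 Sp Set.univ f hLocU hexu hf
  have hfB : ∀ X : ℝ, {c | c ∈ BSet p K ε ∧ (f c : ℝ) ≤ X}.Finite := by
    intro X
    have := hU.1 X
    rwa [Set.inter_univ] at this
  obtain ⟨-, hdb, hinf, -⟩ := h0 Sp A' f hLocA' hex hf
  have hpro := h3 p K K₁ ε hcyc.prim Sp A' f hLocA' hex hf hfB
  exact coreW (fun c => (nf c, cf c)) A' (BSet p K ε) A (ChN p K) G 
    (fun x => Pool.Agent.Helper38.FW.condP p K x.1 * e x) f
    hA.sub (fun c hc => ⟨(k1 c hc).1, (k3 c hc).1⟩) hinj hsur hiff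
    (fun c hc => (hfc c hc).symm) hpro n Bd Z θ hZ hG hfB hdb hinf
    (fun r => (hab r Sp A' f hLocA' hex hf).2.2.2)

end Pool.Agent.Helper49.FW
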